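import Pool.Agent.Lib.MP_a813f9_gt.Full

/-!
# Asymptotic property C passes to group extensions
-/

set_option autoImplicit false
open Pool.Agent.Lib.MP_a813f9_gt

namespace Pool.Agent.Results.MP_a813f9_gt.ExtensionTheorem

/-- Let `f : G → H` be a homomorphism of groups with proper left-invariant metrics. If `H` and
`ker f` (with the restricted metric) have asymptotic property C, then so does `G`. -/
theorem result (G H : Type) [Group G] [Group H] (f : G →* H) (dG : G → G → ℝ) (dH : H → H → ℝ)
    (hG : IsProperLeftInvariant dG) (hH : IsProperLeftInvariant dH)
    (hC : PropertyC dH) (hker : PropertyC (fun a b : f.ker => dG a b)) : PropertyC dG :=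
  full_ext hG hH f hker.label hC.label

end Pool.Agent.Results.MP_a813f9_gt.ExtensionTheorem
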